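import Pool.Agent.Helper70.EC.St

/-!
# Project EC (MP_5c9371), module L2: the `ℓ²` norm of the sum of the averages
-/

set_option autoImplicit false

namespace Pool.Agent.Helper42.EC

open Finset
open Pool.Agent.Helper70.EC
open Pool.Agent.Helper1.PFS (G uu mm cor inf')

variable {p : ℕ} [Fact p.Prime]

private lemma ppos : (0 : ℝ) < (p : ℝ) := by
  exact_mod_cast (Fact.out : p.Prime).pos

private lemma av_supp (x y : Pt p) (f : G p → ℝ) : Supp x y (av x y f) := by
  intro g hg
  unfold av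
  rw [if_neg hg]

private lemma av_nonneg (x y : Pt p) (f : G p → ℝ) (h0 : ∀ g, 0 ≤ f g) (g : G p) :
    0 ≤ av x y f g := by
  unfold av
  by_cases h : g • x = y
  · rw [if_pos h]
    exact mul_nonneg (div_nonneg zero_le_one ppos.le) (Finset.sum_nonneg fun s _ => h0 _)
  · rw [if_neg h]

private lemma av_le_one (x y : Pt p) (f : G p → ℝ) (h1 : ∀ g, f g ≤ 1) (g : G p) :
    av x y f g ≤ 1 := by
  unfold av
  by_cases h : g • x = y
  · rw [if_pos h, one_div, inv_mul_le_iff₀ ppos, mul_one]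
    calc ∑ s : ZMod p, f (g * (kk x * uu s * (kk x)⁻¹)) ≤ ∑ _s : ZMod p, (1 : ℝ) :=
          Finset.sum_le_sum fun s _ => h1 _
      _ = (p : ℝ) := by
          rw [Finset.sum_const, Finset.card_univ, ZMod.card, nsmul_eq_mul, mul_one]
  · rw [if_neg h]
    exact zero_le_one

/-- value of the average on the coset -/
private lemma av_bp (hBP : StBP) (x y : Pt p) (f : G p → ℝ) (c : (ZMod p)ˣ) (s : ZMod p) :
    av x y f (bp x y c s) = (1 / (p : ℝ)) * ∑ t : ZMod p, f (bp x y c t) := by
  obtain ⟨h1, h2, h3, h4, h5, h6⟩ := hBP p x y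
  unfold av
  rw [if_pos ((h1 _).2 ⟨c, s, rfl⟩)]
  congr 1
  rw [← Equiv.sum_comp (Equiv.addLeft s) fun t => f (bp x y c t)]
  refine Finset.sum_congr rfl fun t _ => ?_
  rw [h4]
  rfl

private lemma sum_phi (hBP : StBP) (x y : Pt p) (f : G p → ℝ) (hf : Supp x y f) :
    ∑ c : (ZMod p)ˣ, (1 / (p : ℝ)) * ∑ t : ZMod p, f (bp x y c t) = (∑ g, f g) / p := by
  obtain ⟨h1, h2, h3, h4, h5, h6⟩ := hBP p x y
  rw [h5 f hf, ← Finset.mul_sum]
  ring

private lemma sum_av (hBP : StBP) (x y : Pt p) (f : G p → ℝ) (hf : Supp x y f) :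
    ∑ g, av x y f g = ∑ g, f g := by
  obtain ⟨h1, h2, h3, h4, h5, h6⟩ := hBP p x y
  rw [h5 _ (av_supp x y f)]
  have e1 : ∀ c : (ZMod p)ˣ, ∑ s : ZMod p, av x y f (bp x y c s) =
      (p : ℝ) * ((1 / (p : ℝ)) * ∑ t : ZMod p, f (bp x y c t)) := by
    intro c
    rw [Finset.sum_congr rfl fun s _ => av_bp hBP x y f c s, Finset.sum_const, Finset.card_univ,
      ZMod.card, nsmul_eq_mul]
  rw [Finset.sum_congr rfl fun c _ => e1 c, ← Finset.mul_sum, sum_phi hBP x y f hf]
  have := (ppos (p := p)).ne'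
  field_simp

private lemma cross (hBP : StBP) (x y x' y' : Pt p) (f f' : G p → ℝ) (hf : Supp x y f)
    (h0 : ∀ g, 0 ≤ f g) (h0' : ∀ g, 0 ≤ f' g) (h1' : ∀ g, f' g ≤ 1)
    (hne : (x, y) ≠ (x', y')) :
    ∑ g, av x y f g * av x' y' f' g ≤ (∑ g, f g) / p := by
  classical
  have hw : 0 ≤ (∑ g, f g) / (p : ℝ) := div_nonneg (Finset.sum_nonneg fun g _ => h0 g) ppos.le
  by_cases hx : x = x'
  · have hy : y ≠ y' := fun h => hne (by rw [hx, h])
    have : ∀ g, av x y f g * av x' y' f' g = 0 := by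
      intro g
      by_cases h : g • x = y
      · rw [av_supp x' y' f' g (by rw [← hx, h]; exact hy), mul_zero]
      · rw [av_supp x y f g h, zero_mul]
    rw [Finset.sum_congr rfl fun g _ => this g, Finset.sum_const_zero]
    exact hw
  · by_cases hy : y = y'
    · have : ∀ g, av x y f g * av x' y' f' g = 0 := by
        intro g
        by_cases h : g • x = y
        · rw [av_supp x' y' f' g ?_, mul_zero]
          intro h'
          apply hx
          rw [← hy, ← h] at h'
          exact (smul_left_cancel g h').symm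
        · rw [av_supp x y f g h, zero_mul]
      rw [Finset.sum_congr rfl fun g _ => this g, Finset.sum_const_zero]
      exact hw
    · have hBP' := hBP p x y
      obtain ⟨h1, h2, h3, h4, h5, h6⟩ := hBP'
      have hs : Supp x y fun g => av x y f g * av x' y' f' g := by
        intro g hg
        simp only [av_supp x y f g hg, zero_mul]
      rw [h5 _ hs, ← sum_phi hBP x y f hf]
      refine Finset.sum_le_sum fun c _ => ?_
      have hphi : 0 ≤ (1 / (p : ℝ)) * ∑ t : ZMod p, f (bp x y c t) :=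
        mul_nonneg (div_nonneg zero_le_one ppos.le) (Finset.sum_nonneg fun s _ => h0 _)
      have e1 : ∀ s, av x y f (bp x y c s) * av x' y' f' (bp x y c s) =
          ((1 / (p : ℝ)) * ∑ t : ZMod p, f (bp x y c t)) * av x' y' f' (bp x y c s) := by
        intro s
        rw [av_bp hBP x y f c s]
      rw [Finset.sum_congr rfl fun s _ => e1 s, ← Finset.mul_sum]
      have e2 : ∑ s : ZMod p, av x' y' f' (bp x y c s) ≤ 1 := by
        by_cases hex : ∃ s0, bp x y c s0 • x' = y'
        · obtain ⟨s0, hs0⟩ := hex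
          rw [Finset.sum_eq_single s0]
          · exact av_le_one _ _ _ h1' _
          · intro s _ hs
            apply av_supp
            intro hc
            exact hs (h6 x' y' hx hy c s s0 hc hs0)
          · intro h
            exact absurd (Finset.mem_univ _) h
        · rw [Finset.sum_eq_zero]
          · exact zero_le_one
          · intro s _
            apply av_supp
            intro hc
            exact hex ⟨s, hc⟩
      calc _ ≤ ((1 / (p : ℝ)) * ∑ t : ZMod p, f (bp x y c t)) * 1 :=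
            mul_le_mul_of_nonneg_left e2 hphi
        _ = _ := mul_one _

/-- module L2 -/
theorem hL2 (hBP : StBP) : StL2 := by
  classical
  intro p _ E f hS h0 h1
  have key : ∀ e ∈ E, ∀ e' ∈ E, ∑ g, av e.1 e.2 (f e) g * av e'.1 e'.2 (f e') g ≤
      (if e = e' then ∑ g, f e g else 0) + (∑ g, f e g) / p := by
    intro e he e' he'
    have hw0 : 0 ≤ ∑ g, f e g := Finset.sum_nonneg fun g _ => h0 e he g
    by_cases h : e = e'
    · subst h
      rw [if_pos rfl]
      have h2 : ∑ g, av e.1 e.2 (f e) g * av e.1 e.2 (f e) g ≤ ∑ g, f e g := by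
        rw [← sum_av hBP e.1 e.2 (f e) (hS e he)]
        refine Finset.sum_le_sum fun g _ => ?_
        have ha := av_nonneg e.1 e.2 (f e) (h0 e he) g
        have hb := av_le_one e.1 e.2 (f e) (h1 e he) g
        exact mul_le_of_le_one_right ha hb
      have h3 : 0 ≤ (∑ g, f e g) / (p : ℝ) := div_nonneg hw0 ppos.le
      linarith
    · rw [if_neg h, zero_add]
      exact cross hBP e.1 e.2 e'.1 e'.2 (f e) (f e') (hS e he) (h0 e he) (h0 e' he')
        (h1 e' he') (by simpa using h)
  have e1 : nsq (fun g => ∑ e ∈ E, av e.1 e.2 (f e) g) =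
      ∑ e ∈ E, ∑ e' ∈ E, ∑ g, av e.1 e.2 (f e) g * av e'.1 e'.2 (f e') g := by
    unfold nsq
    calc ∑ g, (∑ e ∈ E, av e.1 e.2 (f e) g) ^ 2
        = ∑ g, ∑ e ∈ E, ∑ e' ∈ E, av e.1 e.2 (f e) g * av e'.1 e'.2 (f e') g := by
          refine Finset.sum_congr rfl fun g _ => ?_
          rw [sq, Finset.sum_mul_sum]
      _ = ∑ e ∈ E, ∑ g, ∑ e' ∈ E, av e.1 e.2 (f e) g * av e'.1 e'.2 (f e') g :=
          Finset.sum_comm
      _ = _ := Finset.sum_congr rfl fun e _ => Finset.sum_comm
  rw [e1]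
  calc ∑ e ∈ E, ∑ e' ∈ E, ∑ g, av e.1 e.2 (f e) g * av e'.1 e'.2 (f e') g
      ≤ ∑ e ∈ E, ∑ e' ∈ E, ((if e = e' then ∑ g, f e g else 0) + (∑ g, f e g) / p) :=
        Finset.sum_le_sum fun e he => Finset.sum_le_sum fun e' he' => key e he e' he'
    _ = ∑ e ∈ E, (∑ g, f e g + (E.card : ℝ) * ((∑ g, f e g) / p)) := by
        refine Finset.sum_congr rfl fun e he => ?_
        rw [Finset.sum_add_distrib, Finset.sum_ite_eq, if_pos he, Finset.sum_const, nsmul_eq_mul]
    _ = (1 + (E.card : ℝ) / p) * ∑ e ∈ E, ∑ g, f e g := by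
        rw [Finset.mul_sum]
        refine Finset.sum_congr rfl fun e _ => ?_
        ring

end Pool.Agent.Helper42.EC
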